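import Pool.Agent.Y237.TH.Cell

/-!
# t-embeddings of the one-point compactifications of discrete spaces
-/

set_option autoImplicit false

open Set Topology Filter Cardinal
open scoped NNReal OnePoint

universe u v

namespace Pool.Agent.Y237.TH

open Pool.Agent.H69R3

/-- `Z` has a t-embedding in `X`. -/
def HasTEmbedding (Z : Type u) (X : Type v) [TopologicalSpace Z] [TopologicalSpace X] : Prop :=
  ∃ e : Z → X, IsEmbedding e ∧ TEmbedded (range e)

/-- The points `x i` converge to the point `x∞ ≠ x i` and have point-finite open neighbourhoods. -/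
def PointFiniteSeq {X : Type v} [TopologicalSpace X] {ι : Type u} (x : ι → X) (xi : X) : Prop :=
  Function.Injective x ∧ (∀ i, x i ≠ xi) ∧ Tendsto x cofinite (𝓝 xi) ∧
    ∃ U : ι → Set X, (∀ i, IsOpen (U i) ∧ x i ∈ U i) ∧ ∀ y, {i | y ∈ U i}.Finite

section sup

variable {X : Type v} {ι : Type u} {u : ι → X → ℝ≥0}

/-- the supremum of the functions `d i * u i` -/
noncomputable def T (u : ι → X → ℝ≥0) (d : ι → ℝ≥0) (y : X) : ℝ≥0 := ⨆ i, d i * u i y

lemma bdd {d : ι → ℝ≥0} (hd : Tendsto d cofinite (𝓝 0)) (hu1 : ∀ i y, u i y ≤ 1) (y : X) :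
    BddAbove (range fun i => d i * u i y) := by
  have h1 : {i | ¬ d i < 1}.Finite := eventually_cofinite.1 (hd.eventually_lt_const one_pos)
  obtain ⟨M, hM⟩ := (h1.image d).bddAbove
  refine ⟨max M 1, ?_⟩
  rintro _ ⟨i, rfl⟩
  have h2 : d i * u i y ≤ d i := mul_le_of_le_one_right' (hu1 i y)
  refine h2.trans ?_
  by_cases hi : d i < 1
  · exact hi.le.trans (le_max_right _ _)
  · exact (hM ⟨i, hi, rfl⟩).trans (le_max_left _ _)

lemma T_cont [TopologicalSpace X] {d : ι → ℝ≥0} (hd : Tendsto d cofinite (𝓝 0))
    (hu1 : ∀ i y, u i y ≤ 1) (hu : ∀ i, Continuous (u i)) : Continuous (T u d) := by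
  apply continuous_of_uniform_approx_of_continuous
  intro V hV
  obtain ⟨ε, hε, hεV⟩ := Metric.mem_uniformity_dist.1 hV
  obtain ⟨δ, hε', hδ⟩ : ∃ δ : ℝ≥0, 0 < δ ∧ (δ : ℝ) = ε / 2 :=
    ⟨Real.toNNReal (ε / 2), Real.toNNReal_pos.2 (by linarith), Real.coe_toNNReal _ (by linarith)⟩
  have h1 : {i | ¬ d i < δ}.Finite :=
    eventually_cofinite.1 (hd.eventually_lt_const hε')
  refine ⟨fun y => h1.toFinset.sup fun i => d i * u i y,
    Continuous.finset_sup_apply fun i _ => continuous_const.mul (hu i), fun y => hεV ?_⟩
  have h2 : (h1.toFinset.sup fun i => d i * u i y) ≤ T u d y :=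
    Finset.sup_le fun i _ => le_ciSup (bdd hd hu1 y) i
  have h3 : T u d y ≤ (h1.toFinset.sup fun i => d i * u i y) + δ := by
    refine ciSup_le' fun i => ?_
    by_cases hi : d i < δ
    · exact ((mul_le_of_le_one_right' (hu1 i y)).trans hi.le).trans le_add_self
    · exact (Finset.le_sup (f := fun i => d i * u i y) (h1.mem_toFinset.2 hi)).trans le_self_add
  rw [NNReal.dist_eq, abs_of_nonneg (sub_nonneg.2 (NNReal.coe_le_coe.2 h2))]
  have h4 : ((T u d y : ℝ≥0) : ℝ) ≤ ((h1.toFinset.sup fun i => d i * u i y : ℝ≥0) : ℝ) + δ :=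
    NNReal.coe_le_coe.2 h3
  linarith

lemma T_fin {d : ι → ℝ≥0} (hd : Tendsto d cofinite (𝓝 0)) (hu1 : ∀ i y, u i y ≤ 1) (y : X)
    {S : Finset ι} (hS : ∀ i ∉ S, u i y = 0) : T u d y = S.sup fun i => d i * u i y := by
  apply le_antisymm
  · refine ciSup_le' fun i => ?_
    by_cases hi : i ∈ S
    · exact Finset.le_sup (f := fun i => d i * u i y) hi
    · rw [hS i hi, mul_zero]
      exact zero_le
  · exact Finset.sup_le fun i _ => le_ciSup (bdd hd hu1 y) i

end sup

/-- **t-embeddings of `A(κ)`.** The one-point compactification of the discrete space `ι` has a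
t-embedding in the compact space `X` if and only if there are points `x i`, `i ∈ ι`, of `X` which
converge to a point and have point-finite open neighbourhoods. -/
theorem alexandroff_iff {X : Type v} [TopologicalSpace X] [CompactSpace X] [T2Space X]
    {ι : Type u} [TopologicalSpace ι] [DiscreteTopology ι] :
    HasTEmbedding (OnePoint ι) X ↔ ∃ (x : ι → X) (xi : X), PointFiniteSeq x xi := by
  classical
  constructor
  · rintro ⟨e, he, hA⟩
    refine ⟨fun i => e i, e ∞, fun i j h => OnePoint.coe_injective (he.injective h),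
      fun i h => OnePoint.coe_ne_infty i (he.injective h),
      (OnePoint.continuous_iff_from_discrete e).1 he.continuous, ?_⟩
    let V : ι → Set (range e) := fun i => {b | b.1 = e i}
    have hVo : ∀ i, IsOpen (V i) := by
      intro i
      have h1 : V i = he.toHomeomorph '' {(i : OnePoint ι)} := by
        ext b
        constructor
        · intro hb
          refine ⟨i, rfl, Subtype.ext ?_⟩
          exact (show b.1 = e i from hb).symm
        · rintro ⟨_, rfl, rfl⟩
          rfl
      rw [h1, he.toHomeomorph.isOpen_image, ← image_singleton, OnePoint.isOpen_image_coe]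
      exact isOpen_discrete _
    obtain ⟨U, h1, h2, h3⟩ := expansion hA hVo (a := fun i => ⟨e i, i, rfl⟩) (fun b => by
      refine Set.Subsingleton.finite ?_
      intro i hi j hj
      have hij : e i = e j := (show b.1 = e i from hi).symm.trans hj
      exact OnePoint.coe_injective (he.injective hij)) (fun i => rfl)
    exact ⟨U, fun i => ⟨h1 i, h2 i⟩, h3⟩
  · rintro ⟨x, xi, hinj, hne, hlim, U, hU, hpf⟩
    let e : OnePoint ι → X := fun z => z.elim xi x
    have hec : Continuous e := (OnePoint.continuous_iff_from_discrete e).2 hlim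
    have hei : Function.Injective e := by
      intro z z' h
      induction z using OnePoint.rec with
      | infty =>
        induction z' using OnePoint.rec with
        | infty => rfl
        | coe j => exact absurd (show xi = x j from h).symm (hne j)
      | coe i =>
        induction z' using OnePoint.rec with
        | infty => exact absurd (show x i = xi from h) (hne i)
        | coe j => rw [hinj (show x i = x j from h)]
    refine ⟨e, (hec.isClosedEmbedding hei).isEmbedding, ?_⟩
    -- the functions
    have hu : ∀ i, ∃ u : X → ℝ≥0, Continuous u ∧ (∀ y, u y ≤ 1) ∧ u (x i) = 1 ∧ u xi = 0 ∧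
        (∀ j, j ≠ i → u (x j) = 0) ∧ ∀ y ∉ U i, u y = 0 := by
      intro i
      have hcl : IsClosed (e '' {(i : OnePoint ι)}ᶜ ∪ (U i)ᶜ) := by
        refine IsClosed.union ?_ (hU i).1.isClosed_compl
        refine ((IsOpen.isClosed_compl ?_).isCompact.image hec).isClosed
        rw [← image_singleton, OnePoint.isOpen_image_coe]
        exact isOpen_discrete _
      have hni : x i ∉ e '' {(i : OnePoint ι)}ᶜ ∪ (U i)ᶜ := by
        rintro (⟨z, hz, hzi⟩ | h)
        · exact hz (hei (show e z = e i from hzi))
        · exact h (hU i).2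
      obtain ⟨f, hf, hf0, hf1⟩ := CompletelyRegularSpace.completely_regular (x i) _ hcl hni
      have hz : ∀ y ∈ e '' {(i : OnePoint ι)}ᶜ ∪ (U i)ᶜ, Real.toNNReal (1 - (f y : ℝ)) = 0 := by
        intro y hy
        rw [hf1 hy]
        simp
      refine ⟨fun y => Real.toNNReal (1 - (f y : ℝ)),
        continuous_real_toNNReal.comp (by fun_prop), fun y => ?_, ?_, ?_, ?_, ?_⟩
      · have h0 : (0 : ℝ) ≤ (f y : ℝ) := (f y).2.1
        exact Real.toNNReal_le_one.2 (by linarith)
      · show Real.toNNReal (1 - (f (x i) : ℝ)) = 1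
        rw [hf0]
        simp
      · exact hz xi (Or.inl ⟨∞, by simp, rfl⟩)
      · intro j hj
        exact hz (x j) (Or.inl ⟨j, by simpa using hj, rfl⟩)
      · intro y hy
        exact hz y (Or.inr hy)
    choose u hu1 hu2 hu3 hu4 hu5 hu6 using hu
    let A := range e
    let p : ι → A := fun i => ⟨x i, i, rfl⟩
    let q : A := ⟨xi, ∞, rfl⟩
    have hpq : Tendsto p cofinite (𝓝 q) := tendsto_subtype_rng.2 hlim
    let dp : Cp A → ι → ℝ≥0 := fun f i => Real.toNNReal (f.1 (p i) - f.1 q)
    let dm : Cp A → ι → ℝ≥0 := fun f i => Real.toNNReal (f.1 q - f.1 (p i))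
    have hdp : ∀ f, Tendsto (dp f) cofinite (𝓝 0) := by
      intro f
      have h1 : Tendsto (fun i => f.1 (p i) - f.1 q) cofinite (𝓝 (f.1 q - f.1 q)) :=
        ((f.2.tendsto q).comp hpq).sub_const _
      rw [sub_self] at h1
      have h2 := (continuous_real_toNNReal.tendsto 0).comp h1
      rwa [Real.toNNReal_zero] at h2
    have hdm : ∀ f, Tendsto (dm f) cofinite (𝓝 0) := by
      intro f
      have h1 : Tendsto (fun i => f.1 q - f.1 (p i)) cofinite (𝓝 (f.1 q - f.1 q)) :=
        ((f.2.tendsto q).comp hpq).const_sub _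
      rw [sub_self] at h1
      have h2 := (continuous_real_toNNReal.tendsto 0).comp h1
      rwa [Real.toNNReal_zero] at h2
    have hfin : ∀ y, {i | u i y ≠ 0}.Finite := fun y =>
      (hpf y).subset fun i hi => by
        by_contra h
        exact hi (hu6 i y h)
    have hS : ∀ y, ∀ i ∉ (hfin y).toFinset, u i y = 0 := by
      intro y i hi
      by_contra h
      exact hi ((hfin y).mem_toFinset.2 h)
    refine ⟨fun f => ⟨fun y => f.1 q + (T u (dp f) y - T u (dm f) y), ?_⟩, ?_, ?_⟩
    · exact continuous_const.add ((NNReal.continuous_coe.comp (T_cont (hdp f) hu2 hu1)).sub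
        (NNReal.continuous_coe.comp (T_cont (hdm f) hu2 hu1)))
    · refine Continuous.subtype_mk (continuous_pi fun y => ?_) _
      have e1 : ∀ f : Cp A, T u (dp f) y = (hfin y).toFinset.sup fun i => dp f i * u i y :=
        fun f => T_fin (hdp f) hu2 y (hS y)
      have e2 : ∀ f : Cp A, T u (dm f) y = (hfin y).toFinset.sup fun i => dm f i * u i y :=
        fun f => T_fin (hdm f) hu2 y (hS y)
      simp_rw [e1, e2]
      have hev : ∀ b : A, Continuous fun f : Cp A => f.1 b := fun b =>
        (continuous_apply b).comp continuous_subtype_val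
      refine (hev q).add (Continuous.sub ?_ ?_)
      · refine NNReal.continuous_coe.comp (Continuous.finset_sup_apply fun i _ => ?_)
        exact (continuous_real_toNNReal.comp ((hev (p i)).sub (hev q))).mul continuous_const
      · refine NNReal.continuous_coe.comp (Continuous.finset_sup_apply fun i _ => ?_)
        exact (continuous_real_toNNReal.comp ((hev q).sub (hev (p i)))).mul continuous_const
    · rintro f ⟨_, z, rfl⟩
      induction z using OnePoint.rec with
      | infty =>
        show f.1 q + (T u (dp f) xi - T u (dm f) xi) = f.1 q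
        have h0 : ∀ d : ι → ℝ≥0, T u d xi = 0 := by
          intro d
          refine le_antisymm (ciSup_le' fun i => ?_) zero_le
          rw [hu4, mul_zero]
        rw [h0, h0]
        simp
      | coe j =>
        show f.1 q + (T u (dp f) (x j) - T u (dm f) (x j)) = f.1 (p j)
        have h0 : ∀ d : ι → ℝ≥0, Tendsto d cofinite (𝓝 0) → T u d (x j) = d j := by
          intro d hd
          rw [T_fin hd hu2 (x j) (S := {j}) (fun i hi => hu5 i j fun h => hi (by simp [h]))]
          rw [Finset.sup_singleton, hu3, mul_one]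
        rw [h0 _ (hdp f), h0 _ (hdm f)]
        show f.1 q + (((Real.toNNReal (f.1 (p j) - f.1 q) : ℝ≥0) : ℝ) -
          ((Real.toNNReal (f.1 q - f.1 (p j)) : ℝ≥0) : ℝ)) = f.1 (p j)
        rw [Real.coe_toNNReal', Real.coe_toNNReal']
        rcases le_total (f.1 q) (f.1 (p j)) with h | h
        · rw [max_eq_left (by linarith), max_eq_right (by linarith)]
          ring
        · rw [max_eq_right (by linarith), max_eq_left (by linarith)]
          ring

end Pool.Agent.Y237.TH
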