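import Mathlib
import Pool.Agent.H69R3.Defs

/-!
# t-embeddings and cellularity

A point-finite family of nonempty open sets of a Baire space is not larger than a maximal family of
disjoint open sets; a continuous extender turns point-finite families of open sets of a subspace
into point-finite families of open sets of the space.
-/

set_option autoImplicit false

open Set Topology Filter Cardinal

universe u v

namespace Pool.Agent.Y237.TH

open Pool.Agent.H69R3

/-- There is a family of at least `κ` pairwise disjoint nonempty open sets of `X`. -/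
def HasCellular (X : Type u) [TopologicalSpace X] (κ : Cardinal.{u}) : Prop :=
  ∃ O : Set (Set X), (∀ o ∈ O, IsOpen o ∧ o.Nonempty) ∧ O.PairwiseDisjoint id ∧ κ ≤ #O

section

variable {X : Type u} [TopologicalSpace X] {ι : Type v} {U : ι → Set X}

/-- near `x` the order of a point-finite family is at least the order at `x` -/
lemma nbhd (hU : ∀ i, IsOpen (U i)) (hpf : ∀ x, {i | x ∈ U i}.Finite) (x : X) :
    IsOpen (⋂ i ∈ {i | x ∈ U i}, U i) ∧ x ∈ ⋂ i ∈ {i | x ∈ U i}, U i ∧
      ∀ y ∈ ⋂ i ∈ {i | x ∈ U i}, U i, {i | x ∈ U i} ⊆ {i | y ∈ U i} :=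
  ⟨(hpf x).isOpen_biInter fun i _ => hU i, mem_iInter₂.2 fun _ hi => hi,
    fun _ hy _ hi => mem_iInter₂.1 hy _ hi⟩

/-- every nonempty open set contains a nonempty open set which meets only finitely many members -/
lemma small_open [BaireSpace X] (hU : ∀ i, IsOpen (U i)) (hpf : ∀ x, {i | x ∈ U i}.Finite)
    {W : Set X} (hW : IsOpen W) (hWn : W.Nonempty) :
    ∃ o ⊆ W, IsOpen o ∧ o.Nonempty ∧ {i | (o ∩ U i).Nonempty}.Finite := by
  let A : ℕ → Set X := fun n => {x | {i | x ∈ U i}.ncard ≤ n}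
  have hA : ∀ n, IsClosed (A n) := by
    intro n
    rw [← isOpen_compl_iff, isOpen_iff_forall_mem_open]
    intro x hx
    obtain ⟨h1, h2, h3⟩ := nbhd hU hpf x
    refine ⟨_, fun y hy hyn => hx ?_, h1, h2⟩
    exact (ncard_le_ncard (h3 y hy) (hpf y)).trans hyn
  have hAU : ⋃ n, A n = Set.univ := eq_univ_of_forall fun x =>
    mem_iUnion.2 ⟨{i | x ∈ U i}.ncard, (le_refl _ : {i | x ∈ U i}.ncard ≤ _)⟩
  obtain ⟨x0, hx0W, hx0⟩ := (dense_iUnion_interior_of_closed hA hAU).inter_open_nonempty W hW hWn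
  obtain ⟨n, hn⟩ := mem_iUnion.1 hx0
  set W' := W ∩ interior (A n) with hW'
  have hne : ((fun x => {i | x ∈ U i}.ncard) '' W').Nonempty := ⟨_, x0, ⟨hx0W, hn⟩, rfl⟩
  have hbd : BddAbove ((fun x => {i | x ∈ U i}.ncard) '' W') := by
    refine ⟨n, ?_⟩
    rintro _ ⟨x, hx, rfl⟩
    have h : x ∈ A n := interior_subset hx.2
    exact h
  obtain ⟨x, hxW, hx⟩ := Nat.sSup_mem hne hbd
  obtain ⟨h1, h2, h3⟩ := nbhd hU hpf x
  refine ⟨W' ∩ ⋂ i ∈ {i | x ∈ U i}, U i, fun y hy => hy.1.1,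
    (hW.inter isOpen_interior).inter h1, ⟨x, hxW, h2⟩, (hpf x).subset ?_⟩
  rintro i ⟨y, ⟨hyW, hy⟩, hyi⟩
  have h4 : {i | y ∈ U i}.ncard ≤ {i | x ∈ U i}.ncard := by
    have h5 := le_csSup hbd (mem_image_of_mem _ hyW)
    rw [← hx] at h5
    exact h5
  have h5 : {i | x ∈ U i} = {i | y ∈ U i} := eq_of_subset_of_ncard_le (h3 y hy) h4 (hpf y)
  rw [h5]
  exact hyi

/-- a maximal disjoint family of such open sets -/
lemma max_family [BaireSpace X] (hU : ∀ i, IsOpen (U i)) (hpf : ∀ x, {i | x ∈ U i}.Finite) :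
    ∃ O : Set (Set X), (∀ o ∈ O, IsOpen o ∧ o.Nonempty ∧ {i | (o ∩ U i).Nonempty}.Finite) ∧
      O.PairwiseDisjoint id ∧ ∀ W : Set X, IsOpen W → W.Nonempty → ∃ o ∈ O, (W ∩ o).Nonempty := by
  obtain ⟨O, hO⟩ := zorn_subset {O : Set (Set X) |
    (∀ o ∈ O, IsOpen o ∧ o.Nonempty ∧ {i | (o ∩ U i).Nonempty}.Finite) ∧ O.PairwiseDisjoint id}
    (by
      intro c hc hchain
      refine ⟨⋃₀ c, ⟨?_, ?_⟩, fun s hs => subset_sUnion_of_mem hs⟩
      · rintro o ⟨s, hs, ho⟩
        exact (hc hs).1 o ho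
      · rintro o ⟨s, hs, ho⟩ o' ⟨s', hs', ho'⟩ hne
        rcases hchain.total hs hs' with h | h
        · exact (hc hs').2 (h ho) ho' hne
        · exact (hc hs).2 ho (h ho') hne)
  refine ⟨O, hO.prop.1, hO.prop.2, fun W hW hWn => ?_⟩
  by_contra hcon
  push Not at hcon
  obtain ⟨o, hoW, ho⟩ := small_open hU hpf hW hWn
  have hdis : ∀ o' ∈ O, Disjoint o o' := by
    intro o' ho'
    rw [disjoint_iff_inter_eq_empty, ← subset_empty_iff, ← hcon o' ho']
    exact inter_subset_inter_left _ hoW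
  have hmem : insert o O ∈ {O : Set (Set X) |
      (∀ o ∈ O, IsOpen o ∧ o.Nonempty ∧ {i | (o ∩ U i).Nonempty}.Finite) ∧
        O.PairwiseDisjoint id} := by
    refine ⟨?_, ?_⟩
    · rintro o' (rfl | ho')
      · exact ho
      · exact hO.prop.1 o' ho'
    · rw [pairwiseDisjoint_insert]
      exact ⟨hO.prop.2, fun o' ho' _ => hdis o' ho'⟩
  have h1 : o ∈ O := hO.le_of_ge hmem (subset_insert _ _) (mem_insert _ _)
  have h2 := hdis o h1
  rw [disjoint_self] at h2
  exact ho.2.1.ne_empty h2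

end

/-- a point-finite family of nonempty open sets of a Baire space is not larger than a family of
disjoint nonempty open sets -/
theorem cellular_of_pointFinite {X : Type u} [TopologicalSpace X] [BaireSpace X] {ι : Type u}
    [Uncountable ι] {U : ι → Set X} (hU : ∀ i, IsOpen (U i)) (hne : ∀ i, (U i).Nonempty)
    (hpf : ∀ x, {i | x ∈ U i}.Finite) : HasCellular X #ι := by
  obtain ⟨O, h1, h2, h3⟩ := max_family hU hpf
  refine ⟨O, fun o ho => ⟨(h1 o ho).1, (h1 o ho).2.1⟩, h2, ?_⟩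
  have h4 : ∀ i, ∃ o : O, (U i ∩ o.1).Nonempty := fun i => by
    obtain ⟨o, ho, h⟩ := h3 (U i) (hU i) (hne i)
    exact ⟨⟨o, ho⟩, h⟩
  choose g hg using h4
  have h5 : #ι ≤ #O * ℵ₀ := by
    refine mk_le_mk_mul_of_mk_preimage_le g fun o => ?_
    have h6 : (g ⁻¹' {o}).Finite := by
      refine (h1 o.1 o.2).2.2.subset fun i hi => ?_
      have h7 : g i = o := hi
      have h8 := hg i
      rw [h7, inter_comm] at h8
      exact h8
    exact h6.lt_aleph0.le
  have h6 : ℵ₀ < #ι := aleph0_lt_mk_iff.2 inferInstance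
  have h7 := h5.trans (mul_le_max _ _)
  rcases le_total #O ℵ₀ with h8 | h8
  · rw [max_eq_right h8, max_self] at h7
    exact absurd h7 (not_le.2 h6)
  · rwa [max_eq_left h8, max_eq_left h8] at h7

/-- a continuous extender turns a point-finite family of open sets of the subspace into a
point-finite family of open sets of the space -/
theorem expansion {X : Type u} [TopologicalSpace X] [T35Space X] {A : Set X}
    (hA : TEmbedded A) {ι : Type v} {V : ι → Set A} (hV : ∀ i, IsOpen (V i))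
    (hpf : ∀ a, {i | a ∈ V i}.Finite) {a : ι → A} (ha : ∀ i, a i ∈ V i) :
    ∃ U : ι → Set X, (∀ i, IsOpen (U i)) ∧ (∀ i, (a i : X) ∈ U i) ∧
      ∀ x, {i | x ∈ U i}.Finite := by
  obtain ⟨φ, hφ, hφe⟩ := hA
  have h1 : ∀ i, ∃ f : Cp A, f.1 (a i) = 1 ∧ ∀ b ∉ V i, f.1 b = 0 := by
    intro i
    obtain ⟨f, hf, hf0, hf1⟩ := CompletelyRegularSpace.completely_regular (a i) (V i)ᶜ
      (hV i).isClosed_compl (fun h => h (ha i))
    refine ⟨⟨fun b => 1 - (f b : ℝ), by fun_prop⟩, ?_, fun b hb => ?_⟩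
    · simp [hf0]
    · have := hf1 (show b ∈ (V i)ᶜ from hb)
      simp [this]
  choose f hfa hf0 using h1
  let z : Cp A := ⟨fun _ => 0, continuous_const⟩
  have hlim : Tendsto f cofinite (𝓝 z) := by
    rw [tendsto_subtype_rng, tendsto_pi_nhds]
    intro b
    refine tendsto_const_nhds.congr' ?_
    have h2 : ∀ᶠ i in cofinite, b ∉ V i := by
      rw [eventually_cofinite]
      simpa using hpf b
    filter_upwards [h2] with i hi
    exact (hf0 i b hi).symm
  refine ⟨fun i => {x | (φ z).1 x + 1 / 2 < (φ (f i)).1 x}, fun i => ?_, fun i => ?_, fun x => ?_⟩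
  · exact isOpen_lt ((φ z).2.add continuous_const) (φ (f i)).2
  · show (φ z).1 (a i) + 1 / 2 < (φ (f i)).1 (a i)
    rw [hφe, hφe, hfa]
    show (0 : ℝ) + 1 / 2 < 1
    norm_num
  · have h2 : Tendsto (fun i => (φ (f i)).1 x) cofinite (𝓝 ((φ z).1 x)) :=
      (((continuous_apply x).comp (continuous_subtype_val.comp hφ)).tendsto z).comp hlim
    have h3 : ∀ᶠ i in cofinite, (φ (f i)).1 x < (φ z).1 x + 1 / 2 :=
      h2.eventually_lt_const (by linarith)
    rw [eventually_cofinite] at h3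
    refine h3.subset fun i hi => ?_
    have h4 : (φ z).1 x + 1 / 2 < (φ (f i)).1 x := hi
    exact not_lt.2 h4.le

/-- t-embedded subspaces have at most the cellularity of the space -/
theorem cellular_of_temb {X : Type u} [TopologicalSpace X] [T35Space X] [BaireSpace X] {A : Set X}
    (hA : TEmbedded A) {κ : Cardinal.{u}} (hκ : ℵ₀ < κ) (h : HasCellular A κ) :
    HasCellular X κ := by
  obtain ⟨O, h1, h2, h3⟩ := h
  have hunc : Uncountable O := aleph0_lt_mk_iff.1 (hκ.trans_le h3)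
  choose a ha using fun o : O => (h1 o.1 o.2).2
  have hpf : ∀ b : A, {o : O | b ∈ o.1}.Finite := by
    intro b
    refine Set.Subsingleton.finite ?_
    intro o ho o' ho'
    by_contra hne
    have := h2 o.2 o'.2 (fun h => hne (Subtype.ext h))
    exact disjoint_left.1 this ho ho'
  obtain ⟨U, hU1, hU2, hU3⟩ := expansion hA (V := fun o : O => o.1) (fun o => (h1 o.1 o.2).1) hpf ha
  obtain ⟨P, hP1, hP2, hP3⟩ := cellular_of_pointFinite hU1 (fun i => ⟨_, hU2 i⟩) hU3
  exact ⟨P, hP1, hP2, h3.trans hP3⟩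

end Pool.Agent.Y237.TH
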