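import Pool.Agent.Y237.TH.Alex

/-!
# Products of first countable compacta and compacta of precaliber `ℵ₁`
-/

set_option autoImplicit false

open Set Topology Filter Cardinal TopologicalSpace

universe u v w

namespace Pool.Agent.Y237.TH

open Pool.Agent.H69R3

lemma pigeon {ι : Type v} {β : Type w} [Countable β] {J : Set ι} (hJ : ¬ J.Countable) (g : ι → β) :
    ∃ b, ¬ {i | i ∈ J ∧ g i = b}.Countable := by
  by_contra h
  push Not at h
  have h1 : J ⊆ ⋃ b, {i | i ∈ J ∧ g i = b} := fun i hi => mem_iUnion.2 ⟨g i, hi, rfl⟩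
  exact hJ ((countable_iUnion h).mono h1)

lemma delta_aux {S : Type w} {ι : Type v} (n : ℕ) : ∀ (F : ι → Finset S) (J : Set ι),
    ¬ J.Countable → (∀ i ∈ J, (F i).card ≤ n) → ∃ J' ⊆ J, ¬ J'.Countable ∧ ∃ R : Finset S,
      ∀ i ∈ J', ∀ j ∈ J', i ≠ j → ∀ s ∈ F i, s ∈ F j → s ∈ R := by
  classical
  induction n with
  | zero =>
    intro F J hJ hc
    refine ⟨J, Subset.rfl, hJ, ∅, fun i hi j _ _ s hs _ => ?_⟩
    have := hc i hi
    rw [Nat.le_zero, Finset.card_eq_zero] at this
    rw [this] at hs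
    exact hs
  | succ n ih =>
    intro F J hJ hc
    by_cases h : ∃ s, ¬ {i | i ∈ J ∧ s ∈ F i}.Countable
    · obtain ⟨s, hs⟩ := h
      obtain ⟨J', h1, h2, R, h3⟩ := ih (fun i => (F i).erase s) {i | i ∈ J ∧ s ∈ F i} hs
        (fun i hi => by
          rw [Finset.card_erase_of_mem hi.2]
          have := hc i hi.1
          omega)
      refine ⟨J', h1.trans fun i hi => hi.1, h2, insert s R, fun i hi j hj hij t ht ht' => ?_⟩
      by_cases hts : t = s
      · exact hts ▸ Finset.mem_insert_self _ _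
      · exact Finset.mem_insert_of_mem (h3 i hi j hj hij t (Finset.mem_erase.2 ⟨hts, ht⟩)
          (Finset.mem_erase.2 ⟨hts, ht'⟩))
    · push Not at h
      obtain ⟨J', hJ'⟩ := zorn_subset
        {K : Set ι | K ⊆ J ∧ K.Pairwise fun i j => Disjoint (F i) (F j)} (by
          intro c hc hchain
          refine ⟨⋃₀ c, ⟨sUnion_subset fun s hs => (hc hs).1, ?_⟩,
            fun s hs => subset_sUnion_of_mem hs⟩
          rintro i ⟨s, hs, hi⟩ j ⟨s', hs', hj⟩ hne
          rcases hchain.total hs hs' with h | h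
          · exact (hc hs').2 (h hi) hj hne
          · exact (hc hs).2 hi (h hj) hne)
      refine ⟨J', hJ'.prop.1, fun hcount => ?_, ∅, fun i hi j hj hij s hs hs' => ?_⟩
      · have hB : (J' ∪ ⋃ i ∈ J', ⋃ s ∈ F i, {j | j ∈ J ∧ s ∈ F j}).Countable :=
          hcount.union (hcount.biUnion fun i _ =>
            (F i).countable_toSet.biUnion fun s _ => h s)
        obtain ⟨k, hk, hkB⟩ : ∃ k ∈ J, k ∉ (J' ∪ ⋃ i ∈ J', ⋃ s ∈ F i, {j | j ∈ J ∧ s ∈ F j}) := by
          by_contra hcon
          push Not at hcon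
          exact hJ (hB.mono hcon)
        have hdis : ∀ i ∈ J', Disjoint (F k) (F i) := by
          intro i hi
          rw [Finset.disjoint_left]
          intro s hs hs'
          exact hkB (Or.inr (mem_iUnion₂.2 ⟨i, hi, mem_iUnion₂.2 ⟨s, hs', hk, hs⟩⟩))
        have hmem : insert k J' ∈
            {K : Set ι | K ⊆ J ∧ K.Pairwise fun i j => Disjoint (F i) (F j)} := by
          refine ⟨insert_subset hk hJ'.prop.1, ?_⟩
          rintro i (rfl | hi) j (rfl | hj) hne
          · exact absurd rfl hne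
          · exact hdis j hj
          · exact (hdis i hi).symm
          · exact hJ'.prop.2 hi hj hne
        exact hkB (Or.inl (hJ'.le_of_ge hmem (subset_insert _ _) (mem_insert _ _)))
      · exact absurd hs' (Finset.disjoint_left.1 (hJ'.prop.2 hi hj hij) hs)

lemma delta {S : Type w} {ι : Type v} (F : ι → Finset S) {J : Set ι} (hJ : ¬ J.Countable) :
    ∃ J' ⊆ J, ¬ J'.Countable ∧ ∃ R : Finset S,
      ∀ i ∈ J', ∀ j ∈ J', i ≠ j → ∀ s ∈ F i, s ∈ F j → s ∈ R := by
  obtain ⟨n, hn⟩ := pigeon hJ fun i => (F i).card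
  obtain ⟨J', h1, h2, h3⟩ := delta_aux n F _ hn fun i hi => hi.2.le
  exact ⟨J', h1.trans fun i hi => hi.1, h2, h3⟩

/-- Every choice of open neighbourhoods of the points `x i` has, on every uncountable set of
indices, an uncountable centered subfamily. -/
def Good {X : Type u} [TopologicalSpace X] {ι : Type v} (x : ι → X) : Prop :=
  ∀ U : ι → Set X, (∀ i, IsOpen (U i) ∧ x i ∈ U i) → ∀ J : Set ι, ¬ J.Countable →
    ∃ J' ⊆ J, ¬ J'.Countable ∧ ∀ T : Finset ι, (T : Set ι) ⊆ J' → (⋂ i ∈ T, U i).Nonempty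

/-- Every uncountable family of nonempty open sets of `X` has an uncountable centered
subfamily (`ℵ₁` is a precaliber of `X`). -/
def HasPrecaliber (X : Type u) [TopologicalSpace X] : Prop :=
  ∀ (ι : Type u) (U : ι → Set X), Uncountable ι → (∀ i, IsOpen (U i) ∧ (U i).Nonempty) →
    ∃ J : Set ι, ¬ J.Countable ∧ ∀ T : Finset ι, (T : Set ι) ⊆ J → (⋂ i ∈ T, U i).Nonempty

/-- `X` is a continuous image of a product of separable spaces. -/
def SeparableProductImage (X : Type u) [TopologicalSpace X] : Prop :=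
  ∃ (S : Type u) (Y : S → Type u) (_ : ∀ s, TopologicalSpace (Y s)) (f : (∀ s, Y s) → X),
    (∀ s, SeparableSpace (Y s)) ∧ Continuous f ∧ Function.Surjective f

section

variable {X : Type u} [TopologicalSpace X] {ι : Type v} {x : ι → X}

lemma good_of_gdelta {a : X} (ha : IsGδ {a}) (h : Tendsto x cofinite (𝓝 a)) : Good x := by
  intro U hU J hJ
  obtain ⟨f, hf, haf⟩ := isGδ_iff_eq_iInter_nat.1 ha
  have h1 : {i | x i ≠ a}.Countable := by
    have h2 : {i | x i ≠ a} ⊆ ⋃ n, {i | ¬ x i ∈ f n} := by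
      intro i hi
      by_contra hcon
      refine hi ?_
      have h3 : x i ∈ ({a} : Set X) := by
        rw [haf]
        refine mem_iInter.2 fun n => ?_
        by_contra hn
        exact hcon (mem_iUnion.2 ⟨n, hn⟩)
      exact h3
    refine (countable_iUnion fun n => ?_).mono h2
    have h4 : a ∈ f n := mem_iInter.1 (haf ▸ mem_singleton a) n
    exact (eventually_cofinite.1 (h.eventually_mem ((hf n).mem_nhds h4))).countable
  refine ⟨J \ {i | x i ≠ a}, sdiff_subset, fun hc => hJ ?_, fun T hT => ⟨a, ?_⟩⟩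
  · refine (hc.union h1).mono fun i hi => ?_
    by_cases hia : x i ≠ a
    · exact Or.inr hia
    · exact Or.inl ⟨hi, hia⟩
  · refine mem_iInter₂.2 fun i hi => ?_
    have h2 : ¬ x i ≠ a := (hT hi).2
    rw [not_not] at h2
    exact h2 ▸ (hU i).2

lemma good_of_separable [SeparableSpace X] : Good x := by
  intro U hU J hJ
  obtain ⟨D, hDc, hD⟩ := exists_countable_dense X
  have h1 : ∀ i, ∃ d : D, d.1 ∈ U i := by
    intro i
    obtain ⟨d, hd, hdD⟩ := hD.inter_open_nonempty (U i) (hU i).1 ⟨_, (hU i).2⟩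
    exact ⟨⟨d, hdD⟩, hd⟩
  choose d hd using h1
  have := hDc.to_subtype
  obtain ⟨b, hb⟩ := pigeon hJ d
  refine ⟨_, fun i hi => hi.1, hb, fun T hT => ⟨b.1, mem_iInter₂.2 fun i hi => ?_⟩⟩
  have h2 : d i = b := (hT hi).2
  exact h2 ▸ hd i

lemma good_comp {Y : Type w} [TopologicalSpace Y] {f : X → Y} (hf : Continuous f) (h : Good x) :
    Good fun i => f (x i) := by
  intro U hU J hJ
  obtain ⟨J', h1, h2, h3⟩ := h (fun i => f ⁻¹' U i) (fun i => ⟨(hU i).1.preimage hf, (hU i).2⟩) J hJ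
  refine ⟨J', h1, h2, fun T hT => ?_⟩
  obtain ⟨z, hz⟩ := h3 T hT
  exact ⟨f z, mem_iInter₂.2 fun i hi => mem_iInter₂.1 hz i hi⟩

end

lemma good_pi {S : Type w} {X : S → Type u} [∀ s, TopologicalSpace (X s)] {ι : Type v}
    {x : ι → ∀ s, X s} (h : ∀ s, Good fun i => x i s) : Good x := by
  classical
  intro U hU J hJ
  have h1 : ∀ i, ∃ (F : Finset S) (V : ∀ s, Set (X s)), (∀ s ∈ F, IsOpen (V s) ∧ x i s ∈ V s) ∧
      (F : Set S).pi V ⊆ U i := fun i => isOpen_pi_iff.1 (hU i).1 (x i) (hU i).2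
  choose F V hV hVU using h1
  obtain ⟨J1, hJ1, hJ1u, R, hR⟩ := delta F hJ
  have h2 : ∀ R' : Finset S, ∃ J2 ⊆ J1, ¬ J2.Countable ∧ ∀ s ∈ R', ∀ T : Finset ι,
      (T : Set ι) ⊆ J2 → ∃ z : X s, ∀ i ∈ T, s ∈ F i → z ∈ V i s := by
    intro R'
    induction R' using Finset.induction_on with
    | empty => exact ⟨J1, Subset.rfl, hJ1u, fun s hs => absurd hs (Finset.notMem_empty s)⟩
    | insert t R' _ ih =>
      obtain ⟨J2, h3, h4, h5⟩ := ih
      obtain ⟨J3, h6, h7, h8⟩ := h t (fun i => if t ∈ F i then V i t else Set.univ) (fun i => by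
        by_cases hi : t ∈ F i
        · simp only [if_pos hi]
          exact hV i t hi
        · simp only [if_neg hi]
          exact ⟨isOpen_univ, mem_univ _⟩) J2 h4
      refine ⟨J3, h6.trans h3, h7, fun s hs T hT => ?_⟩
      rcases Finset.mem_insert.1 hs with rfl | hs
      · obtain ⟨z, hz⟩ := h8 T hT
        refine ⟨z, fun i hi his => ?_⟩
        have h9 := mem_iInter₂.1 hz i hi
        simp only [if_pos his] at h9
        exact h9
      · exact h5 s hs T (hT.trans h6)
  obtain ⟨J2, h3, h4, h5⟩ := h2 R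
  obtain ⟨i0, -⟩ : J2.Nonempty := by
    rw [nonempty_iff_ne_empty]
    rintro rfl
    exact h4 countable_empty
  refine ⟨J2, h3.trans hJ1, h4, fun T hT => ?_⟩
  have h6 : ∀ s, ∃ z : X s, ∀ i ∈ T, s ∈ F i → z ∈ V i s := by
    intro s
    by_cases hs : s ∈ R
    · exact h5 s hs T hT
    · by_cases hT' : ∃ i ∈ T, s ∈ F i
      · obtain ⟨j, hj, hjs⟩ := hT'
        refine ⟨x j s, fun i hi his => ?_⟩
        by_cases hij : i = j
        · subst hij
          exact (hV i s his).2
        · exact absurd (hR i (h3 (hT hi)) j (h3 (hT hj)) hij s his hjs) hs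
      · exact ⟨x i0 s, fun i hi his => absurd ⟨i, hi, his⟩ hT'⟩
  choose z hz using h6
  exact ⟨z, mem_iInter₂.2 fun i hi => hVU i fun s hs => hz s i hi hs⟩

lemma good_of_precaliber {X : Type u} [TopologicalSpace X] (h : HasPrecaliber X) {ι : Type u}
    (x : ι → X) : Good x := by
  intro U hU J hJ
  have hu : Uncountable J := not_countable_iff.1 fun hc => hJ (countable_coe_iff.1 hc)
  obtain ⟨K, h1, h2⟩ := h J (fun i => U i.1) hu fun i => ⟨(hU i.1).1, _, (hU i.1).2⟩
  classical
  refine ⟨Subtype.val '' K, ?_, fun hc => h1 ?_, fun T hT => ?_⟩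
  · rintro _ ⟨i, _, rfl⟩
    exact i.2
  · exact countable_of_injective_of_countable_image Subtype.val_injective.injOn hc
  · have h3 : ∀ i : {i // i ∈ T}, ∃ j : J, j ∈ K ∧ j.1 = i.1 := fun i => hT i.2
    choose g hg1 hg2 using h3
    obtain ⟨z, hz⟩ := h2 (T.attach.image g) (by
      intro j hj
      obtain ⟨i, _, rfl⟩ := Finset.mem_image.1 (Finset.mem_coe.1 hj)
      exact hg1 i)
    refine ⟨z, mem_iInter₂.2 fun i hi => ?_⟩
    have h4 := mem_iInter₂.1 hz (g ⟨i, hi⟩) (Finset.mem_image.2 ⟨_, Finset.mem_attach _ _, rfl⟩)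
    rw [hg2] at h4
    exact h4

/-- Continuous images of products of separable spaces have precaliber `ℵ₁`. -/
theorem precaliber_of_image {X : Type u} [TopologicalSpace X] (h : SeparableProductImage X) :
    HasPrecaliber X := by
  intro ι U hι hU
  obtain ⟨S, Y, _, f, hY, hf, hfs⟩ := h
  choose y hy using fun i => (hU i).2
  choose x hx using fun i => hfs (y i)
  have h1 : Good x := good_pi fun s => by
    have := hY s
    exact good_of_separable
  obtain ⟨J, -, h2, h3⟩ := good_comp hf h1 U (fun i => ⟨(hU i).1, by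
      show f (x i) ∈ U i
      rw [hx]
      exact hy i⟩) Set.univ
    (fun hc => not_countable_iff.2 hι (countable_univ_iff.1 hc))
  exact ⟨J, h2, h3⟩

lemma not_pointFinite {X : Type u} [TopologicalSpace X] [CompactSpace X] [T2Space X] {ι : Type v}
    [Uncountable ι] {x : ι → X} (h : Good x) {U : ι → Set X} (hU : ∀ i, IsOpen (U i) ∧ x i ∈ U i) :
    ∃ y, ¬ {i | y ∈ U i}.Finite := by
  have h1 : ∀ i, ∃ C : Set X, C ∈ 𝓝 (x i) ∧ IsClosed C ∧ C ⊆ U i := fun i =>
    exists_mem_nhds_isClosed_subset ((hU i).1.mem_nhds (hU i).2)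
  choose C hC1 hC2 hC3 using h1
  obtain ⟨J, -, hJ, hJc⟩ := h (fun i => interior (C i))
    (fun i => ⟨isOpen_interior, mem_interior_iff_mem_nhds.2 (hC1 i)⟩) Set.univ
    (fun hc => not_countable_iff.2 inferInstance (countable_univ_iff.1 hc))
  classical
  obtain ⟨y, hy⟩ := CompactSpace.iInter_nonempty (t := fun i : J => C i.1) (fun i => hC2 i.1)
    (fun s => by
      obtain ⟨z, hz⟩ := hJc (s.image Subtype.val) (by
        intro i hi
        obtain ⟨j, _, rfl⟩ := Finset.mem_image.1 (Finset.mem_coe.1 hi)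
        exact j.2)
      exact ⟨z, mem_iInter₂.2 fun i hi => interior_subset
        (mem_iInter₂.1 hz i.1 (Finset.mem_image.2 ⟨i, hi, rfl⟩))⟩)
  refine ⟨y, fun hfin => hJ ((hfin.subset fun i hi => ?_).countable)⟩
  exact hC3 i (mem_iInter.1 hy ⟨i, hi⟩)

/-- **No t-embeddings of `A(κ)` in products.** -/
theorem not_temb_pi {S : Type w} {X : S → Type u} [∀ s, TopologicalSpace (X s)]
    [∀ s, CompactSpace (X s)] [∀ s, T2Space (X s)]
    (h : ∀ s, (∀ a : X s, IsGδ {a}) ∨ HasPrecaliber (X s)) {ι : Type u} [Uncountable ι]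
    [TopologicalSpace ι] [DiscreteTopology ι] : ¬ HasTEmbedding (OnePoint ι) (∀ s, X s) := by
  intro hcon
  obtain ⟨x, xi, -, -, hlim, U, hU, hpf⟩ := alexandroff_iff.1 hcon
  have h1 : Good x := good_pi fun s => by
    rcases h s with h | h
    · exact good_of_gdelta (h (xi s)) (((continuous_apply s).tendsto xi).comp hlim)
    · exact good_of_precaliber h _
  obtain ⟨y, hy⟩ := not_pointFinite h1 hU
  exact hy (hpf y)

end Pool.Agent.Y237.TH
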