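import Pool.Agent.Y237.TH.Good

/-!
# t-embeddings in homogeneous compacta
-/

set_option autoImplicit false

open Set Topology Filter Cardinal TopologicalSpace

universe u v w

namespace Pool.Agent.Y237.TH

open Pool.Agent.H69R3

/-- `X` is homogeneous. -/
def Homogeneous (X : Type u) [TopologicalSpace X] : Prop :=
  ∀ x y : X, ∃ h : X ≃ₜ X, h x = y

lemma cellular_homeo {Z Y : Type u} [TopologicalSpace Z] [TopologicalSpace Y] (h : Z ≃ₜ Y)
    {κ : Cardinal.{u}} (hZ : HasCellular Z κ) : HasCellular Y κ := by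
  obtain ⟨O, h1, h2, h3⟩ := hZ
  refine ⟨(fun o => h '' o) '' O, ?_, ?_, ?_⟩
  · rintro _ ⟨o, ho, rfl⟩
    exact ⟨h.isOpen_image.2 (h1 o ho).1, (h1 o ho).2.image h⟩
  · rintro _ ⟨o, ho, rfl⟩ _ ⟨o', ho', rfl⟩ hne
    have h4 : o ≠ o' := fun h => hne (by rw [h])
    exact (disjoint_image_iff h.injective).2 (h2 ho ho' h4)
  · rw [mk_image_eq h.injective.image_injective]
    exact h3

/-- the cellularity of a space is at most the cellularity of the compact spaces in which it is
t-embedded -/
theorem cellular_of_hasTEmbedding {Z X : Type u} [TopologicalSpace Z] [TopologicalSpace X]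
    [CompactSpace X] [T2Space X] {κ : Cardinal.{u}} (hκ : ℵ₀ < κ) (h : HasTEmbedding Z X)
    (hZ : HasCellular Z κ) : HasCellular X κ := by
  obtain ⟨e, he, hA⟩ := h
  exact cellular_of_temb hA hκ (cellular_homeo he.toHomeomorph hZ)

/-- `A(κ)` is t-embedded only in compact spaces with `κ` disjoint open sets -/
theorem cellular_of_alexandroff {X ι : Type u} [TopologicalSpace X] [CompactSpace X] [T2Space X]
    [Uncountable ι] [TopologicalSpace ι] [DiscreteTopology ι]
    (h : HasTEmbedding (OnePoint ι) X) : HasCellular X #ι := by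
  obtain ⟨x, xi, -, -, -, U, hU, hpf⟩ := alexandroff_iff.1 h
  exact cellular_of_pointFinite (fun i => (hU i).1) (fun i => ⟨_, (hU i).2⟩) hpf

/-- A positive answer for all compact spaces gives homogeneous compacta of large cellularity. -/
theorem large_cellular
    (H : ∀ (Z : Type u) [TopologicalSpace Z] [CompactSpace Z] [T2Space Z],
      ∃ (X : Type u) (_ : TopologicalSpace X), CompactSpace X ∧ T2Space X ∧ Homogeneous X ∧
        HasTEmbedding Z X) (κ : Cardinal.{u}) :
    ∃ (X : Type u) (_ : TopologicalSpace X), CompactSpace X ∧ T2Space X ∧ Homogeneous X ∧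
      HasCellular X κ := by
  let ι : Type u := (max κ (aleph 1)).out
  have hι : #ι = max κ (aleph 1) := mk_out _
  have hu : Uncountable ι := by
    rw [← aleph0_lt_mk_iff, hι]
    exact aleph0_lt_aleph_one.trans_le (le_max_right _ _)
  let _ : TopologicalSpace ι := ⊥
  have : DiscreteTopology ι := ⟨rfl⟩
  obtain ⟨X, tX, h1, h2, h3, h4⟩ := H (OnePoint ι)
  obtain ⟨O, h5, h6, h7⟩ := cellular_of_alexandroff h4
  exact ⟨X, tX, h1, h2, h3, O, h5, h6, (le_max_left _ _).trans (hι.symm.le.trans h7)⟩

end Pool.Agent.Y237.TH
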